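import Pool.Agent.ALT32.Socle

/-!
# The soluble graph of an almost simple group with alternating socle

For a group `G` with trivial soluble radical, `solubleGraph G` (in `Pool/Agent/ALT32/Defs.lean`) is
the graph whose vertices are the elements `x ≠ 1` of `G`, two distinct vertices being adjacent if
they generate a soluble subgroup. `diam` is the diameter (a natural number, as the graphs are
connected). A finite group `G` is almost simple with socle isomorphic to `A_n` (`n ≥ 5`) if and only
if it has a normal subgroup `N` isomorphic to `A_n` with trivial centralizer; then `N` is the socle.
-/

set_option autoImplicit false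

namespace Pool.Agent.Results.MP_bb27f7_al.AlternatingSocle

open Pool.Agent.ALT32

/-- For every almost simple group `G` whose socle `N` is isomorphic to `A_n` (`n ≥ 5`) the diameters
of the soluble graphs of `G` and `N` differ by at most 1. -/
theorem result {G : Type*} [Group G] [Finite G] (N : Subgroup G) [N.Normal] (n : ℕ) (hn : 5 ≤ n)
    (f : N ≃* alternatingGroup (Fin n)) (hC : Subgroup.centralizer (N : Set G) = ⊥) :
    (solubleGraph G).Connected ∧ (solubleGraph N).Connected ∧
      |((solubleGraph G).diam : ℤ) - (solubleGraph N).diam| ≤ 1 :=
  socle N n hn f hC

end Pool.Agent.Results.MP_bb27f7_al.AlternatingSocle
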