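import Pool.Agent.ALT32.Normal

/-!
# The soluble graph of a group and of an arbitrary normal subgroup

For a group `G` with trivial soluble radical, `solubleGraph G` (in `Pool/Agent/ALT32/Defs.lean`) is
the graph whose vertices are the elements `x ≠ 1` of `G`, two distinct vertices being adjacent if
they generate a soluble subgroup. `diam` is the diameter (a natural number, as the graphs are
connected).
-/

set_option autoImplicit false

namespace Pool.Agent.Results.MP_bb27f7_al.AtMostTwoMore

open Pool.Agent.ALT32

/-- If the soluble graph of a normal subgroup `N` of the finite group `G` is connected, then so is
the soluble graph of `G`, and its diameter exceeds the diameter for `N` by at most 2. -/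
theorem result {G : Type*} [Group G] [Finite G] (N : Subgroup G) [N.Normal]
    (hc : (solubleGraph N).Connected) :
    (solubleGraph G).Connected ∧ (solubleGraph G).diam ≤ (solubleGraph N).diam + 2 :=
  two_more N hc

end Pool.Agent.Results.MP_bb27f7_al.AtMostTwoMore
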