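import Pool.Agent.ALT32.Normal

/-!
# The soluble graph of a group and of a normal subgroup of 2-power index

For a group `G` with trivial soluble radical, `solubleGraph G` (in `Pool/Agent/ALT32/Defs.lean`) is
the graph whose vertices are the elements `x ≠ 1` of `G`, two distinct vertices being adjacent if
they generate a soluble subgroup. `diam` is the diameter (a natural number, as the graphs are
connected).
-/

set_option autoImplicit false

namespace Pool.Agent.Results.MP_bb27f7_al.TwoPowerIndex

open Pool.Agent.ALT32

/-- If `N` is a normal subgroup of 2-power index of the finite group `G` and the soluble graph of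
`N` is connected with diameter at least 2, then the diameter for `G` is at least 2 and exceeds the
diameter for `N` by at most 1. -/
theorem result {G : Type*} [Group G] [Finite G] (N : Subgroup G) [N.Normal] (k : ℕ)
    (hk : N.index = 2 ^ k) (hc : (solubleGraph N).Connected) (h2 : 2 ≤ (solubleGraph N).diam) :
    (solubleGraph G).Connected ∧ 2 ≤ (solubleGraph G).diam ∧
      (solubleGraph G).diam ≤ (solubleGraph N).diam + 1 :=
  ⟨(two_power_diam N k hk hc h2).1,
    two_le_of_sub N hc h2 (two_power_diam N k hk hc h2).1, (two_power_diam N k hk hc h2).2⟩

end Pool.Agent.Results.MP_bb27f7_al.TwoPowerIndex
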